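import Pool.Agent.H70.EI.Targets

/-!
# ACL: the answers as functions of the variables of the oracle
-/

set_option autoImplicit false

open Finset Filter Pool.Agent.H6.NB Pool.Agent.H70.OQ Pool.Agent.H70.EH Pool.Agent.H70.EI

namespace Pool.Agent.H4.EI.ACL

open Classical in
theorem acl (h1 : T_LCL) (h2 : T_PCL) (h3 : Pool.Agent.H6.NB.T_CLB) : T_ACL := by
  intro V W ρ hρ X O r i hO hi
  have hS1 : 1 ≤ 2 ^ r ^ 2 := Nat.one_le_two_pow
  have hS : 2 ≤ 2 ^ 2 ^ r ^ 2 := by
    calc 2 = 2 ^ 1 := by norm_num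
      _ ≤ 2 ^ 2 ^ r ^ 2 := Nat.pow_le_pow_right (by norm_num) hS1
  have mono := (h3 X (2 ^ 2 ^ r ^ 2) hS).2.1
  have hxor := (h3 X (2 ^ 2 ^ r ^ 2) hS).2.2.2.2
  cases i with
  | inl p =>
    have hk : scale (V p.1) p.1 p.2 ≤ r := hi
    unfold scale at hk
    have ht : (V p.1).time p.2.length + 1 ≤ 2 ^ r ^ 2 := by
      have e1 : (V p.1).time p.2.length < 2 ^ (Nat.log 2 ((V p.1).time p.2.length) + 1) :=
        Nat.lt_pow_succ_log_self (by norm_num) _
      have e2 : Nat.log 2 ((V p.1).time p.2.length) + 1 ≤ r ^ 2 := by nlinarith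
      have e3 : 2 ^ (Nat.log 2 ((V p.1).time p.2.length) + 1) ≤ 2 ^ r ^ 2 :=
        Nat.pow_le_pow_right (by norm_num) e2
      omega
    have h4 := h1 X (2 ^ 2 ^ r ^ 2) ((V p.1).time p.2.length) ((V p.1).alt p.2.length)
      ((V p.1).tree p.2) O hS (Nat.pow_le_pow_right (by norm_num) ht) hO
      (fun ws hl hws => ⟨(V p.1).depth_le p.2 ws hl hws, (V p.1).short p.2 ws hl hws⟩)
    exact mono _ _ _ (by omega) h4
  | inr a =>
    have hk : ρ a ≤ r := hi
    have hsm := hρ.small a
    set k := (W a).1 with hkdef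
    set c := (W a).2.c with hcdef
    have hlen : (List.replicate (2 ^ ρ a) false).length = 2 ^ ρ a := List.length_replicate
    have ht : ((List.replicate (2 ^ ρ a) false).length ^ c + c) + 1 ≤ 2 ^ r ^ 2 := by
      rw [hlen, ← pow_mul]
      have e1 : 2 ^ (ρ a * c) ≤ 2 ^ (r * c + r) :=
        Nat.pow_le_pow_right (by norm_num) (by nlinarith)
      have e2 : c + 1 ≤ 2 ^ (r * c + r) := by
        have e3 : c + 1 < 2 ^ (c + 1) := Nat.lt_two_pow_self
        have e4 : 2 ^ (c + 1) ≤ 2 ^ (r * c + r) :=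
          Nat.pow_le_pow_right (by norm_num) (by nlinarith)
        omega
      have e5 : 2 ^ (r * c + r) + 2 ^ (r * c + r) ≤ 2 ^ r ^ 2 := by
        rw [← two_mul, ← pow_succ']
        apply Nat.pow_le_pow_right (by norm_num)
        nlinarith
      omega
    have hp : 2 ^ (k + 1) * (List.replicate (2 ^ ρ a) false).length + 1 ≤ 2 ^ r ^ 2 := by
      rw [hlen, ← pow_add]
      have e1 : 2 ^ (k + 1 + ρ a) + 1 ≤ 2 ^ (k + 1 + ρ a + 1) := by
        rw [pow_succ]
        have : 1 ≤ 2 ^ (k + 1 + ρ a) := Nat.one_le_two_pow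
        omega
      refine e1.trans (Nat.pow_le_pow_right (by norm_num) ?_)
      nlinarith
    have h4 := h1 X (2 ^ 2 ^ r ^ 2) ((List.replicate (2 ^ ρ a) false).length ^ c + c) (k + 1)
      ((W a).2.tree (List.replicate (2 ^ ρ a) false)) O hS
      (Nat.pow_le_pow_right (by norm_num) ht) hO
      (fun ws hl hws => ⟨(W a).2.depth_le _ ws hl hws, (W a).2.short _ ws hl hws⟩)
    have h5 := h2 X (2 ^ 2 ^ r ^ 2) (k + 1) (List.replicate (2 ^ ρ a) false) O hS
      (Nat.pow_le_pow_right (by norm_num) hp) hO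
    have h6 := hxor _ _ _ h4 h5
    have e : (fun y => decide (ansr V W ρ (O y) (.inr a))) = fun y =>
        xor (decide (Alt (fun w => w.length ≤ (List.replicate (2 ^ ρ a) false).length ^ c + c)
          true (k + 1) fun ws => ((W a).2.tree (List.replicate (2 ^ ρ a) false) ws).eval (O y) =
            true)) (decide (List.replicate (2 ^ ρ a) false ∈ plang (k + 1) (O y))) := by
      funext y
      have hiff : ansr V W ρ (O y) (.inr a) ↔
          ¬ ((Alt (fun w => w.length ≤ (List.replicate (2 ^ ρ a) false).length ^ c + c)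
          true (k + 1) fun ws => ((W a).2.tree (List.replicate (2 ^ ρ a) false) ws).eval (O y) =
            true) ↔ List.replicate (2 ^ ρ a) false ∈ plang (k + 1) (O y)) := Iff.rfl
      by_cases hA : (Alt (fun w => w.length ≤ (List.replicate (2 ^ ρ a) false).length ^ c + c)
          true (k + 1) fun ws => ((W a).2.tree (List.replicate (2 ^ ρ a) false) ws).eval (O y) =
            true) <;>
      by_cases hB : List.replicate (2 ^ ρ a) false ∈ plang (k + 1) (O y) <;>
      simp [hiff, hA, hB]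
    rw [e]
    exact mono _ _ _ (by omega) h6

end Pool.Agent.H4.EI.ACL
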