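import Pool.Agent.H70.EI.Targets
import Pool.Agent.H48.OQ.FMG

/-!
# FML: the value of a machine is a formula
-/

set_option autoImplicit false

open Finset Filter Pool.Agent.H6.NB Pool.Agent.H70.OQ Pool.Agent.H70.EH Pool.Agent.H70.EI

namespace Pool.Agent.H4.EI.FML

theorem conv {X : Type} (O : (X → Bool) → List Bool → Bool) (hO : Lit O)
    (T : Pool.Agent.H6.NB.DT) : ∃ T' : Pool.Agent.H68.AC.DT X, T'.depth ≤ T.depth ∧
      ∀ y, T'.eval y = T.eval (O y) := by
  induction T with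
  | leaf b => exact ⟨.leaf b, le_rfl, fun y => rfl⟩
  | node w l r ihl ihr =>
    obtain ⟨l', hl1, hl2⟩ := ihl
    obtain ⟨r', hr1, hr2⟩ := ihr
    rcases hO w with ⟨b, hb⟩ | ⟨v, hv⟩
    · cases b with
      | false =>
        refine ⟨l', ?_, fun y => ?_⟩
        · simp only [Pool.Agent.H6.NB.DT.depth]; omega
        · simp only [Pool.Agent.H6.NB.DT.eval, hb y, hl2 y]
          simp
      | true =>
        refine ⟨r', ?_, fun y => ?_⟩
        · simp only [Pool.Agent.H6.NB.DT.depth]; omega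
        · simp only [Pool.Agent.H6.NB.DT.eval, hb y, hr2 y]
          simp
    · refine ⟨.node v l' r', ?_, fun y => ?_⟩
      · simp only [Pool.Agent.H68.AC.DT.depth, Pool.Agent.H6.NB.DT.depth]; omega
      · simp only [Pool.Agent.H68.AC.DT.eval, Pool.Agent.H6.NB.DT.eval, hv y, hl2 y, hr2 y]
        cases y v <;> simp

theorem fml (h : Pool.Agent.H6.NB.T_FIS) : T_FML := by
  classical
  intro X k M O x t ht hO
  obtain ⟨Ws, hW1, hW2⟩ := h.1 (t - 1)
  rw [Nat.sub_add_cancel (by omega)] at hW1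
  refine ⟨_, (Pool.Agent.H48.OQ.FMG.alt_fm (V := X) (fun w => w.length ≤ x.length ^ M.c + M.c) t Ws
    hW1 (fun w hw => hW2 w (by omega)) k (fun ws y => (M.tree x ws).eval (O y) = true) ?_).1, ?_⟩
  · intro ws hl hws
    obtain ⟨T', h1, h2⟩ := conv O hO (M.tree x ws)
    refine ⟨T', h1.trans ((M.depth_le x ws hl hws).trans ht.le), fun y => by rw [h2]⟩
  · intro y
    rw [decide_eq_true_eq]
    rfl

end Pool.Agent.H4.EI.FML
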