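import Pool.Agent.H70.EI.Targets

/-!
# ISO: the oracle exists
-/

set_option autoImplicit false

open Finset Filter Pool.Agent.H6.NB Pool.Agent.H70.OQ Pool.Agent.H70.EH Pool.Agent.H70.EI

namespace Pool.Agent.H4.EI.ISO

section

variable (V : ℕ → ATM) (W : ℕ → Hm) (ρ : ℕ → ℕ) (E : Finset Ix)

/-- the positions of the copies -/
abbrev Bp : Type := Σ p : {p : ℕ × List Bool // Sum.inl p ∈ E},
  (Fin (2 * (hm V p.1).length) → Bool) × VV (qs (hm V p.1))

/-- the positions of the tables -/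
abbrev Tp : Type := Σ a : {a : ℕ // Sum.inr a ∈ E}, Nn (2 ^ ρ a.1) ((W a.1).1 + 1)

/-- the string of a position of a copy -/
def bs (q : Bp V E) : List Bool := pos (hm V q.1.1) (List.ofFn q.2.1) (List.ofFn q.2.2.2) q.2.2.1

/-- the string of a position of a table -/
def ts (q : Tp W ρ E) : List Bool := false :: nstr (2 ^ ρ q.1.1) ((W q.1.1).1 + 1) q.2

/-- the value at a position of a copy -/
def bv (P : ∀ i : {a // a ∈ E}, Ct V W ρ i.1) (q : Bp V E) : Bool :=
  (P ⟨.inl q.1.1, q.1.2⟩ : (Fin (2 * (hm V q.1.1).length) → Bool) → VV (qs (hm V q.1.1)) → Bool)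
    q.2.1 q.2.2

/-- the value at a position of a table -/
def tv (P : ∀ i : {a // a ∈ E}, Ct V W ρ i.1) (q : Tp W ρ E) : Bool :=
  tb (n := 2 ^ ρ q.1.1) (k := (W q.1.1).1 + 1) (P ⟨.inr q.1.1, q.1.2⟩) q.2

open Classical in
/-- the oracle -/
noncomputable def Or (P : ∀ i : {a // a ∈ E}, Ct V W ρ i.1) (w : List Bool) : Bool :=
  if h : ∃ q : Bp V E, w = bs V E q then bv V W ρ E P h.choose
  else if h : ∃ q : Tp W ρ E, w = ts W ρ E q then tv V W ρ E P h.choose
  else false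

variable {V W ρ E}

theorem pos_inj (h2 : Pool.Agent.H6.NB.T_COD) {s s' : List Bool}
    {u : Fin (2 * s.length) → Bool} {u' : Fin (2 * s'.length) → Bool}
    {v v' : List Bool} {b b' : Bool}
    (h : pos s (List.ofFn u) v b = pos s' (List.ofFn u') v' b') :
    s = s' ∧ HEq u u' ∧ v = v' ∧ b = b' := by
  unfold pos at h
  obtain ⟨a, c, d⟩ := h2.1 _ _ _ _ _ _ h
  subst a
  have e := List.append_inj c (by simp)
  refine ⟨rfl, heq_of_eq (List.ofFn_injective e.1), e.2, ?_⟩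
  cases b <;> cases b' <;> simp at d ⊢

theorem bs_inj (h1 : T_HMX) (h2 : Pool.Agent.H6.NB.T_COD) {q q' : Bp V E}
    (h : bs V E q = bs V E q') : q = q' := by
  obtain ⟨⟨p, hp⟩, u, v⟩ := q
  obtain ⟨⟨p', hp'⟩, u', v'⟩ := q'
  obtain ⟨h3, h4, h5, h6⟩ := pos_inj h2 h
  have hj : p = p' := h1.1 V p p' h3
  subst hj
  have hu : u = u' := eq_of_heq h4
  subst hu
  have hv : v = v' := Prod.ext h6 (List.ofFn_injective h5)
  subst hv
  rfl

theorem len_ne (hρ : Rho W ρ) {a a' : ℕ} (h : a < a') :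
    (2 ^ ((W a).1 + 1 + 1) - 1) * 2 ^ ρ a < (2 ^ ((W a').1 + 1 + 1) - 1) * 2 ^ ρ a' := by
  have h1 := hρ.sep a a' h
  have h2 : (2 ^ ((W a).1 + 1 + 1) - 1) * 2 ^ ρ a ≤ 2 ^ ((W a).1 + 3) * 2 ^ ρ a := by
    apply Nat.mul_le_mul_right
    exact (Nat.sub_le _ _).trans (Nat.pow_le_pow_right (by norm_num) (by omega))
  have h3 : 1 * 2 ^ ρ a' ≤ (2 ^ ((W a').1 + 1 + 1) - 1) * 2 ^ ρ a' := by
    apply Nat.mul_le_mul_right
    have : 2 ^ 1 ≤ 2 ^ ((W a').1 + 1 + 1) :=
      Nat.pow_le_pow_right (by norm_num) (by omega)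
    exact Nat.le_sub_of_add_le this
  omega

theorem ts_inj (hρ : Rho W ρ) (h3 : T_NST) {q q' : Tp W ρ E}
    (h : ts W ρ E q = ts W ρ E q') : q = q' := by
  obtain ⟨⟨a, ha⟩, x⟩ := q
  obtain ⟨⟨a', ha'⟩, x'⟩ := q'
  have h4 : nstr (2 ^ ρ a) ((W a).1 + 1) x = nstr (2 ^ ρ a') ((W a').1 + 1) x' :=
    List.tail_eq_of_cons_eq h
  have h5 : (2 ^ ((W a).1 + 1 + 1) - 1) * 2 ^ ρ a = (2 ^ ((W a').1 + 1 + 1) - 1) * 2 ^ ρ a' := by
    have h6 := congrArg List.length h4
    rw [(h3 _ _).1 x, (h3 _ _).1 x'] at h6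
    exact h6
  have haa : a = a' := by
    rcases lt_trichotomy a a' with h6 | h6 | h6
    · have := len_ne hρ h6; omega
    · exact h6
    · have := len_ne hρ h6; omega
  subst haa
  have hx : x = x' := (h3 _ _).2.1 x x' h4
  subst hx
  rfl

theorem bs_ne_ts (h1 : T_HMX) (q : Bp V E) (q' : Tp W ρ E) : bs V E q ≠ ts W ρ E q' := by
  intro h
  obtain ⟨w, hw⟩ := h1.2.1 V q.1.1 (List.ofFn q.2.1) (List.ofFn q.2.2.2) q.2.2.1
  unfold bs ts at h
  rw [hw] at h
  simp at h

theorem Or_bs (h1 : T_HMX) (h2 : Pool.Agent.H6.NB.T_COD)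
    (P : ∀ i : {a // a ∈ E}, Ct V W ρ i.1) (q : Bp V E) :
    Or V W ρ E P (bs V E q) = bv V W ρ E P q := by
  unfold Or
  have hx : ∃ q' : Bp V E, bs V E q = bs V E q' := ⟨q, rfl⟩
  rw [dif_pos hx]
  have hs := hx.choose_spec
  rw [← bs_inj h1 h2 hs]

theorem Or_ts (h1 : T_HMX) (hρ : Rho W ρ) (h3 : T_NST)
    (P : ∀ i : {a // a ∈ E}, Ct V W ρ i.1) (q : Tp W ρ E) :
    Or V W ρ E P (ts W ρ E q) = tv V W ρ E P q := by
  unfold Or
  have hx : ¬ ∃ q' : Bp V E, ts W ρ E q = bs V E q' := by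
    rintro ⟨q', h⟩
    exact bs_ne_ts h1 q' q h.symm
  rw [dif_neg hx]
  have hy : ∃ q' : Tp W ρ E, ts W ρ E q = ts W ρ E q' := ⟨q, rfl⟩
  rw [dif_pos hy]
  have hs := hy.choose_spec
  rw [← ts_inj hρ h3 hs]

theorem Or_else (P : ∀ i : {a // a ∈ E}, Ct V W ρ i.1) {w : List Bool}
    (h : ¬ ∃ q : Bp V E, w = bs V E q) (h' : ¬ ∃ q : Tp W ρ E, w = ts W ρ E q) :
    Or V W ρ E P w = false := by
  unfold Or
  rw [dif_neg h, dif_neg h']

end

theorem isox (h1 : T_HMX) (h2 : Pool.Agent.H70.OQ.T_NST) (h3 : Pool.Agent.H6.NB.T_COD) :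
    T_ISO := by
  intro V W ρ hρ E
  refine ⟨Or V W ρ E, ⟨?_, ?_, ?_, ?_⟩⟩
  · intro P p h u
    funext v
    exact Or_bs h1 h3 P ⟨⟨p, h⟩, u, v⟩
  · intro P a h x
    exact Or_ts h1 hρ h2 P ⟨⟨a, h⟩, x⟩
  · intro P p h u w
    by_cases hw : ∃ q : Bp V E, w = bs V E q
    · obtain ⟨⟨⟨p', hp'⟩, u', v'⟩, rfl⟩ := hw
      by_cases hj : p' = p
      · subst hj
        by_cases hu : u' = u
        · subst hu
          right
          refine ⟨v', fun c => ?_⟩
          rw [Or_bs h1 h3]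
          unfold bv
          simp only
          rw [Function.update_self, Function.update_self]
        · left
          refine ⟨(P ⟨.inl p', h⟩ : (Fin (2 * (hm V p').length) → Bool) →
            VV (qs (hm V p')) → Bool) u' v', fun c => ?_⟩
          rw [Or_bs h1 h3]
          unfold bv
          simp only
          rw [Function.update_self, Function.update_of_ne hu]
      · left
        refine ⟨(P ⟨.inl p', hp'⟩ : (Fin (2 * (hm V p').length) → Bool) →
            VV (qs (hm V p')) → Bool) u' v', fun c => ?_⟩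
        rw [Or_bs h1 h3]
        unfold bv
        simp only
        rw [Function.update_of_ne (by
          intro e
          exact hj (Sum.inl.inj (Subtype.mk.inj e)))]
    · by_cases hw2 : ∃ q : Tp W ρ E, w = ts W ρ E q
      · obtain ⟨q, rfl⟩ := hw2
        left
        refine ⟨tv V W ρ E P q, fun c => ?_⟩
        rw [Or_ts h1 hρ h2]
        unfold tv
        rw [Function.update_of_ne (by
          intro e
          exact Sum.inr_ne_inl (Subtype.mk.inj e))]
      · left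
        exact ⟨false, fun c => Or_else _ hw hw2⟩
  · intro P a h w
    by_cases hw : ∃ q : Bp V E, w = bs V E q
    · obtain ⟨q, rfl⟩ := hw
      left
      intro c
      rw [Or_bs h1 h3, Or_bs h1 h3]
      unfold bv
      rw [Function.update_of_ne (by
        intro e
        exact Sum.inl_ne_inr (Subtype.mk.inj e))]
    · by_cases hw2 : ∃ q : Tp W ρ E, w = ts W ρ E q
      · obtain ⟨⟨⟨a', ha'⟩, x'⟩, rfl⟩ := hw2
        by_cases haa : a' = a
        · subst haa
          right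
          exact ⟨x', rfl⟩
        · left
          intro c
          rw [Or_ts h1 hρ h2, Or_ts h1 hρ h2]
          unfold tv
          simp only
          rw [Function.update_of_ne (by
            intro e
            exact haa (Sum.inr.inj (Subtype.mk.inj e)))]
      · left
        intro c
        rw [Or_else _ hw hw2, Or_else _ hw hw2]

end Pool.Agent.H4.EI.ISO
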