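import Pool.Agent.H70.EI.Targets

/-!
# RHO: the sizes of the tables
-/

set_option autoImplicit false

open Finset Filter Pool.Agent.H6.NB Pool.Agent.H70.OQ Pool.Agent.H70.EH Pool.Agent.H70.EI

namespace Pool.Agent.H4.EI.RHO

/-- the bound for the next size -/
def bnd (W : ℕ → Hm) (a r : ℕ) : ℕ :=
  (2 ^ r) ^ (W a).2.c + (W a).2.c + 2 ^ ((W a).1 + 3) * 2 ^ r + 2 + r

theorem rho (h1 : T_TBN) : T_RHO := by
  intro W
  have h2 : ∀ a m : ℕ, ∃ r, m + ((W a).2.c + (W a).1 + 30) ≤ r ∧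
      TabOK (W a).1 (W a).2.c (2 ^ r) := by
    intro a m
    have h3 : Tendsto (fun r : ℕ => 2 ^ r) atTop atTop :=
      tendsto_pow_atTop_atTop_of_one_lt (by norm_num)
    have h4 := h3.eventually (h1 (W a).1 (W a).2.c)
    obtain ⟨r, hr1, hr2⟩ := (h4.and (eventually_ge_atTop (m + ((W a).2.c + (W a).1 + 30)))).exists
    exact ⟨r, hr2, hr1⟩
  choose F hF1 hF2 using h2
  let ρ : ℕ → ℕ := fun a => Nat.rec (F 0 0) (fun a r => F (a + 1) (bnd W a r)) a
  have e0 : ρ 0 = F 0 0 := rfl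
  have e1 : ∀ a, ρ (a + 1) = F (a + 1) (bnd W a (ρ a)) := fun a => rfl
  have hs : ∀ a, (W a).2.c + (W a).1 + 30 ≤ ρ a := by
    intro a
    cases a with
    | zero => rw [e0]; have := hF1 0 0; omega
    | succ a => rw [e1]; have := hF1 (a + 1) (bnd W a (ρ a)); omega
  have hb : ∀ a, bnd W a (ρ a) ≤ ρ (a + 1) := by
    intro a
    rw [e1]; have := hF1 (a + 1) (bnd W a (ρ a)); omega
  have hm : StrictMono ρ := by
    apply strictMono_nat_of_lt_succ
    intro a
    have := hb a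
    unfold bnd at this
    omega
  refine ⟨ρ, hm, hs, fun a b hab => ?_, fun a => ?_⟩
  · have h3 := hb a
    unfold bnd at h3
    have h4 : ρ (a + 1) < 2 ^ ρ (a + 1) := Nat.lt_two_pow_self
    have h5 : 2 ^ ρ (a + 1) ≤ 2 ^ ρ b :=
      Nat.pow_le_pow_right (by norm_num) (hm.monotone hab)
    omega
  · cases a with
    | zero => rw [e0]; exact hF2 0 0
    | succ a => rw [e1]; exact hF2 _ _

end Pool.Agent.H4.EI.RHO
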